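import Pool.Agent.Helper63.P705.NR.Goals
import Pool.Agent.Helper53.PT.A

/-! MP_705522_gt, packet NR-GO3: consequences for `f0`, `f1`. -/

namespace Pool.Agent.Helper90.NR

open MeasureTheory Set Filter Topology
open Pool.Agent.Helper53.PT
open Pool.Agent.Helper63.P705.NR (de GG GE GO3)

/-- `e^3.38 ≤ 29.5`. -/
theorem exp_338 : Real.exp 3.38 ≤ 29.5 := by
  have h1 : Real.exp 3.38 = Real.exp 1 ^ 3 * Real.exp 0.38 := by
    rw [← Real.exp_nat_mul, ← Real.exp_add]; norm_num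
  have h2 : Real.exp 1 ≤ 2.7182818286 := Real.exp_one_lt_d9.le
  have h3 : Real.exp 0.38 ≤ 1.4624 := by
    have h := Real.exp_bound' (x := 0.38) (by norm_num) (by norm_num) (n := 6) (by norm_num)
    refine h.trans ?_
    norm_num [Finset.sum_range_succ, Nat.factorial]
  rw [h1]
  have h4 : Real.exp 1 ^ 3 ≤ 2.7182818286 ^ 3 := pow_le_pow_left₀ (Real.exp_pos _).le h2 3
  calc Real.exp 1 ^ 3 * Real.exp 0.38 ≤ 2.7182818286 ^ 3 * 1.4624 :=
        mul_le_mul h4 h3 (Real.exp_pos _).le (by positivity)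
    _ ≤ 29.5 := by norm_num

/-- `27.5 ≤ e^3.38`. -/
theorem exp_338' : 27.5 ≤ Real.exp 3.38 := by
  have h1 : Real.exp 3.38 = Real.exp 1 ^ 3 * Real.exp 0.38 := by
    rw [← Real.exp_nat_mul, ← Real.exp_add]; norm_num
  have h2 : 2.7182818283 ≤ Real.exp 1 := Real.exp_one_gt_d9.le
  have h3 : 1 + 0.38 + 0.38 ^ 2 / 2 ≤ Real.exp 0.38 := Real.quadratic_le_exp_of_nonneg (by norm_num)
  rw [h1]
  have h4 : 2.7182818283 ^ 3 ≤ Real.exp 1 ^ 3 := pow_le_pow_left₀ (by norm_num) h2 3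
  calc (27.5 : ℝ) ≤ 2.7182818283 ^ 3 * (1 + 0.38 + 0.38 ^ 2 / 2) := by norm_num
    _ ≤ Real.exp 1 ^ 3 * Real.exp 0.38 := mul_le_mul h4 h3 (by positivity) (by positivity)

/-- `e^(-u²/2) ≤ .0963/u` for `u ≥ 2.6`. -/
theorem gauss_le {u : ℝ} (hu : 2.6 ≤ u) : Real.exp (-(u ^ 2) / 2) ≤ 0.0963 / u := by
  have hu0 : 0 < u := by linarith
  rw [le_div_iff₀ hu0]
  have h1 : -(u ^ 2) / 2 = -3.38 + -((u ^ 2 - 6.76) / 2) := by ring
  have hx : 0 ≤ (u ^ 2 - 6.76) / 2 := by nlinarith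
  have h2 : 1 + (u ^ 2 - 6.76) / 2 ≤ Real.exp ((u ^ 2 - 6.76) / 2) := by
    linarith [Real.add_one_le_exp ((u ^ 2 - 6.76) / 2)]
  have h3 : Real.exp (-3.38) ≤ 1 / 27.5 := by
    rw [Real.exp_neg, inv_eq_one_div]
    exact one_div_le_one_div_of_le (by norm_num) exp_338'
  have h4 : Real.exp (-((u ^ 2 - 6.76) / 2)) ≤ 1 / (1 + (u ^ 2 - 6.76) / 2) := by
    rw [Real.exp_neg, inv_eq_one_div]
    exact one_div_le_one_div_of_le (by linarith) h2
  have h5 : Real.exp (-(u ^ 2) / 2) ≤ 1 / 27.5 * (1 / (1 + (u ^ 2 - 6.76) / 2)) := by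
    rw [h1, Real.exp_add]
    exact mul_le_mul h3 h4 (Real.exp_pos _).le (by norm_num)
  have h6 : 1 / 27.5 * (1 / (1 + (u ^ 2 - 6.76) / 2)) * u ≤ 0.0963 := by
    have h7 : 0 < 1 + (u ^ 2 - 6.76) / 2 := by linarith
    rw [show 1 / 27.5 * (1 / (1 + (u ^ 2 - 6.76) / 2)) * u = u / (27.5 * (1 + (u ^ 2 - 6.76) / 2)) by
      field_simp]
    rw [div_le_iff₀ (by positivity)]
    nlinarith
  exact (mul_le_mul_of_nonneg_right h5 hu0.le).trans h6

theorem gO3 : GO3 := by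
  intro hE θ h49 h12 hD hG0 hup hG
  have hth0 : 0 < θ := by linarith
  have hE2 := hE.2.1
  have hd0 : 0 < de θ := by unfold de; linarith
  have hd1 : de θ ≤ 0.02 := by unfold de; linarith
  have hf00 : f0 θ 0 = 1 := f0_zero hth0 h12
  -- (2)
  have h2 : ∀ s, 0 ≤ s → 1 - 0.032 * (Real.exp (s / 2) - 1) ≤ f0 θ s * Real.exp (s / 2) := by
    have hd : ∀ s : ℝ, HasDerivAt (fun s => f0 θ s * Real.exp (s / 2) + 0.032 * (Real.exp (s / 2) - 1))
        (-(de θ / 2) * (GG θ s * Real.exp (s / 2)) + 0.032 * (Real.exp (s / 2) * (1 / 2))) s := by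
      intro s
      refine (hD s).add ?_
      exact (((((hasDerivAt_id s).div_const 2).exp).sub_const 1).const_mul 0.032)
    have hm : MonotoneOn (fun s => f0 θ s * Real.exp (s / 2) + 0.032 * (Real.exp (s / 2) - 1)) (Ici 0) := by
      apply monotoneOn_of_deriv_nonneg (convex_Ici 0)
      · exact fun s _ => (hd s).continuousAt.continuousWithinAt
      · exact fun s _ => (hd s).differentiableAt.differentiableWithinAt
      · intro s hs
        rw [interior_Ici, mem_Ioi] at hs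
        rw [(hd s).deriv]
        have h1 : GG θ s ≤ 1.6 := by
          have := (hG (√s) (Real.sqrt_nonneg s)).1
          rwa [Real.sq_sqrt hs.le] at this
        have h0 : 0 ≤ GG θ s := hG0 s hs.le
        have he := Real.exp_pos (s / 2)
        have h3 : de θ * GG θ s ≤ 0.02 * 1.6 := mul_le_mul hd1 h1 h0 (by norm_num)
        nlinarith [mul_le_mul_of_nonneg_right h3 he.le]
    intro s hs
    have h := hm (by simp : (0 : ℝ) ∈ Ici (0 : ℝ)) (mem_Ici.2 hs) hs
    simp only [zero_div, Real.exp_zero, mul_one, hf00] at h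
    linarith
  -- (1)
  have h1 : ∀ s, 0 ≤ s → s ≤ 6.76 → 0 < f0 θ s := by
    intro s hs hs'
    have h := h2 s hs
    have he : Real.exp (s / 2) ≤ 29.5 :=
      (Real.exp_le_exp.2 (by linarith : s / 2 ≤ 3.38)).trans exp_338
    have hp : 0 < f0 θ s * Real.exp (s / 2) := by linarith
    exact (pos_iff_pos_of_mul_pos hp).2 (Real.exp_pos _)
  -- (3)
  have h3 : ∀ u, 0 < u → -(0.0963 / u) ≤ f0 θ (u ^ 2) := by
    have hc : Continuous (fun w : ℝ => Real.exp (w ^ 2 / 2)) := by fun_prop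
    have hI : ∀ u : ℝ, HasDerivAt (fun u => ∫ w in (0 : ℝ)..u, Real.exp (w ^ 2 / 2))
        (Real.exp (u ^ 2 / 2)) u := fun u =>
      intervalIntegral.integral_hasDerivAt_right (hc.intervalIntegrable _ _)
        (hc.stronglyMeasurableAtFilter _ _) hc.continuousAt
    have hd : ∀ u : ℝ, HasDerivAt (fun u => f0 θ (u ^ 2) * Real.exp (u ^ 2 / 2) +
        0.0664 * ∫ w in (0 : ℝ)..u, Real.exp (w ^ 2 / 2))
        (-(de θ / 2) * (GG θ (u ^ 2) * Real.exp (u ^ 2 / 2)) * (2 * u) +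
          0.0664 * Real.exp (u ^ 2 / 2)) u := by
      intro u
      have hs : HasDerivAt (fun u : ℝ => u ^ 2) (2 * u) u := by
        simpa using hasDerivAt_pow 2 u
      refine HasDerivAt.add ?_ ((hI u).const_mul 0.0664)
      exact (hD (u ^ 2)).comp u hs
    have hm : MonotoneOn (fun u => f0 θ (u ^ 2) * Real.exp (u ^ 2 / 2) +
        0.0664 * ∫ w in (0 : ℝ)..u, Real.exp (w ^ 2 / 2)) (Ici 0) := by
      apply monotoneOn_of_deriv_nonneg (convex_Ici 0)
      · exact fun s _ => (hd s).continuousAt.continuousWithinAt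
      · exact fun s _ => (hd s).differentiableAt.differentiableWithinAt
      · intro u hu
        rw [interior_Ici, mem_Ioi] at hu
        rw [(hd u).deriv]
        have h1 : u * GG θ (u ^ 2) ≤ 3.32 := (hG u hu.le).2
        have h0 : 0 ≤ u * GG θ (u ^ 2) := mul_nonneg hu.le (hG0 _ (sq_nonneg u))
        have he := Real.exp_pos (u ^ 2 / 2)
        have h4 : de θ * (u * GG θ (u ^ 2)) ≤ 0.02 * 3.32 := mul_le_mul hd1 h1 h0 (by norm_num)
        nlinarith [mul_le_mul_of_nonneg_right h4 he.le]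
    intro u hu
    have h := hm (by simp : (0 : ℝ) ∈ Ici (0 : ℝ)) (mem_Ici.2 hu.le) hu.le
    simp only [ne_eq, OfNat.ofNat_ne_zero, not_false_eq_true, zero_pow, zero_div, Real.exp_zero,
      mul_one, hf00, intervalIntegral.integral_same, mul_zero, add_zero] at h
    have h5 := hE2 u hu.le
    have he := Real.exp_pos (u ^ 2 / 2)
    have h6 : -0.0963 * Real.exp (u ^ 2 / 2) ≤ u * f0 θ (u ^ 2) * Real.exp (u ^ 2 / 2) := by
      have h7 : u * 1 ≤ u * (f0 θ (u ^ 2) * Real.exp (u ^ 2 / 2) +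
        0.0664 * ∫ w in (0 : ℝ)..u, Real.exp (w ^ 2 / 2)) := mul_le_mul_of_nonneg_left h hu.le
      nlinarith
    have h7 : -0.0963 ≤ u * f0 θ (u ^ 2) := le_of_mul_le_mul_right h6 he
    rw [neg_le_iff_add_nonneg, ← mul_nonneg_iff_of_pos_left hu]
    have h8 : u * (f0 θ (u ^ 2) + 0.0963 / u) = u * f0 θ (u ^ 2) + 0.0963 := by
      field_simp
    rw [h8]; linarith
  refine ⟨h1, h2, h3, ?_, ?_⟩
  · intro u hu
    have hu0 : 0 < u := by linarith
    rw [abs_le]
    refine ⟨h3 u hu0, ?_⟩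
    refine (hup _ (sq_nonneg u)).trans ?_
    exact gauss_le hu
  · intro u hu
    have hf1 : f1 θ (u ^ 2) = f0 θ (u ^ 2) + de θ * GG θ (u ^ 2) := by
      unfold GG; field_simp; ring
    have hg0 : 0 ≤ GG θ (u ^ 2) := hG0 _ (sq_nonneg u)
    have he := Real.exp_pos (-(u ^ 2) / 2)
    have hg1 : de θ * GG θ (u ^ 2) ≤ 0.0963 / u := by
      rw [le_div_iff₀ hu]
      have h1 : u * GG θ (u ^ 2) ≤ 3.32 := (hG u hu.le).2
      have h0 : 0 ≤ u * GG θ (u ^ 2) := mul_nonneg hu.le hg0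
      have h4 : de θ * (u * GG θ (u ^ 2)) ≤ 0.02 * 3.32 := mul_le_mul hd1 h1 h0 (by norm_num)
      nlinarith
    rw [abs_le, hf1]
    constructor
    · have := h3 u hu
      have h5 : 0 ≤ de θ * GG θ (u ^ 2) := mul_nonneg hd0.le hg0
      linarith
    · have := hup _ (sq_nonneg u)
      linarith

end Pool.Agent.Helper90.NR
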